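import Pool.Agent.NH32.LP.Asm
import Pool.Agent.NH32.LP.J1
import Pool.Agent.NH32.LP.J2
import Pool.Agent.NH32.LP.J3
import Pool.Agent.NH32.LP.J4
import Pool.Agent.NH32.LP.J5
import Pool.Agent.NH32.LP.J6
import Pool.Agent.NH32.LP.J7
import Pool.Agent.NH32.LP.J8
import Pool.Agent.NH32.LP.J9
import Pool.Agent.NH32.LP.J10
import Pool.Agent.NH32.LP.J11

/-!
# Lipschitz spaces over non-porous subsets: one half of the isomorphism

For every real normed space `X` and every non-porous subset `M` of `X`, `Lip_0(X)` is isomorphic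
to a complemented subspace of `Lip_0(M)`; and `Lip_0(M)` is isomorphic to `Lip_0(X)` if and only
if it is isomorphic to a complemented subspace of `Lip_0(X)`.
-/

set_option autoImplicit false

namespace Pool.Agent.Results.MP_65fa9b_an.ComplementedIff

open Pool.Agent.H266R3.LF Pool.Agent.NH62.Lip Pool.Agent.NH32.LP

theorem result (X : Type) [NormedAddCommGroup X] [NormedSpace ℝ X] (M : Set X) (o : M)
    (h : ¬ Porous M) :
    IsoComplemented (Lip0 X 0) (Lip0 M o) ∧
    (Nonempty (Lip0 M o ≃L[ℝ] Lip0 X 0) ↔ IsoComplemented (Lip0 M o) (Lip0 X 0)) := by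
  have hc := card_ok
  have hg := gl_ok
  have hop : S_op := op_of J_ok Q_ok (QJ_of hg)
  have hfin : S_fin := fin_of facE_ok quot_ok ev_ok
  have hp : S_pelc := pelc_of congr_ok prod_ok add_ok curry_ok hc
  have h1 := main_of congr_ok add_ok hc hp np_ok sel_ok hop hfin loc_ok sep_ok dense_ok X M o h
  exact ⟨h1.1, h1.2.1⟩

end Pool.Agent.Results.MP_65fa9b_an.ComplementedIff
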