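import Pool.Agent.NH32.LP.Asm
import Pool.Agent.NH32.LP.J1
import Pool.Agent.NH32.LP.J2
import Pool.Agent.NH32.LP.J3
import Pool.Agent.NH32.LP.J4
import Pool.Agent.NH32.LP.J5
import Pool.Agent.NH32.LP.J6
import Pool.Agent.NH32.LP.J7
import Pool.Agent.NH32.LP.J8
import Pool.Agent.NH32.LP.J9
import Pool.Agent.NH32.LP.J10
import Pool.Agent.NH32.LP.J11
import Pool.Agent.NH32.LP.J13

/-!
# Lipschitz spaces over non-porous subsets: the problem is local

For every nonzero real normed space `X`, `Lip_0(M)` is isomorphic to `Lip_0(X)` for all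
non-porous subsets `M` of `X` if and only if the spaces `Lip_0(F)`, `F` a finite subset of `X`,
are uniformly isomorphic to uniformly complemented subspaces of `Lip_0(X)`.
-/

set_option autoImplicit false

namespace Pool.Agent.Results.MP_65fa9b_an.LocalCriterion

open Pool.Agent.H266R3.LF Pool.Agent.NH62.Lip Pool.Agent.NH32.LP

theorem result (X : Type) [NormedAddCommGroup X] [NormedSpace ℝ X] [Nontrivial X] :
    List.TFAE [
      ∀ (M : Set X) (o : M), ¬ Porous M → Nonempty (Lip0 M o ≃L[ℝ] Lip0 X 0),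
      ∀ (Z : Set X) (o : Z), IsoComplemented (Lip0 Z o) (Lip0 X 0),
      ∃ C : ℝ, ∀ (F : Set X) (o : F), F.Finite →
        ∃ (J : Lip0 F o →L[ℝ] Lip0 X 0) (Q : Lip0 X 0 →L[ℝ] Lip0 F o),
          ‖J‖ ≤ C ∧ ‖Q‖ ≤ C ∧ ∀ f, Q (J f) = f] := by
  have hc := card_ok
  have hg := gl_ok
  have hop : S_op := op_of J_ok Q_ok (QJ_of hg)
  have hfin : S_fin := fin_of facE_ok quot_ok ev_ok
  have hp : S_pelc := pelc_of congr_ok prod_ok add_ok curry_ok hc
  tfae_have 1 → 3 := fun h => crit_of ball_ok X h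
  tfae_have 3 → 2 := by
    rintro ⟨C, hC⟩ Z o
    exact Asm.isoC_of_cp (sub_of congr_ok add_ok hc hp hop loc_ok sep_ok dense_ok X Z o C C
      fun F o' hF _ => hC F o' hF)
  tfae_have 2 → 1 := fun h M o hM =>
    (main_of congr_ok add_ok hc hp np_ok sel_ok hop hfin loc_ok sep_ok dense_ok X M o hM).2.1.2
      (h M o)
  tfae_finish

end Pool.Agent.Results.MP_65fa9b_an.LocalCriterion
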