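import Pool.Agent.NH32.LQ.Asm2
import Pool.Agent.NH32.LQ.DenC
import Pool.Agent.NH32.LQ.DenL
import Pool.Agent.NH32.LQ.Fre
import Pool.Agent.NH32.LQ.InfC
import Pool.Agent.NH32.LP.J1
import Pool.Agent.NH32.LP.J2
import Pool.Agent.NH32.LP.J3
import Pool.Agent.NH32.LP.J4
import Pool.Agent.NH32.LP.J5
import Pool.Agent.NH32.LP.J6
import Pool.Agent.NH32.LP.J7
import Pool.Agent.NH32.LP.J8
import Pool.Agent.NH32.LP.J9
import Pool.Agent.NH32.LP.J10
import Pool.Agent.NH32.LP.J11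
import Pool.Agent.NH32.LP.J12
import Pool.Agent.NH32.LP.J13

/-!
# Lipschitz spaces over non-porous sets and the space `Lip_0(ℓ_1(Γ))`

Let `X` be a normed space of density character `|Γ|`. Then `Lip_0(X)` is isomorphic to
`Lip_0(ℓ_1(Γ))` if and only if `Lip_0(M)` is isomorphic to `Lip_0(ℓ_1(Γ))` for all non-porous subsets
`M` of `X`, and if and only if the spaces `Lip_0(F)` of all finite metric spaces `F` are uniformly
isomorphic to uniformly complemented subspaces of `Lip_0(X)`. This is the case if `X` contains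
uniformly complemented `ℓ_1^n`'s. If `X` contains uniformly isomorphic copies of the spaces `ℓ_∞^n`, the
positive answer to the question for `X` (`Lip_0(M)` is isomorphic to `Lip_0(X)` for all non-porous `M`)
is equivalent to the isomorphism of `Lip_0(X)` and `Lip_0(ℓ_1(Γ))`; so for `X = c_0` the question
is whether `Lip_0(c_0)` and `Lip_0(ℓ_1)` are isomorphic.
-/

set_option autoImplicit false

namespace Pool.Agent.Results.MP_65fa9b_an.ModelSpaceL1

open Pool.Agent.H266R3.LF Pool.Agent.NH62.Lip Pool.Agent.NH32.LP Pool.Agent.NH32.LQ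
open scoped ENNReal ZeroAtInfty

/-- The positive answer to Q1 for `X`: `Lip_0(M)` and `Lip_0(X)` are linearly homeomorphic for every
non-porous subset `M` of `X` and every base point. -/
def Positive (X : Type) [NormedAddCommGroup X] [NormedSpace ℝ X] : Prop :=
  ∀ (M : Set X) (o : M), ¬ Porous M → Nonempty (Lip0 M o ≃L[ℝ] Lip0 X 0)

/-- `Lip_0(X)` and `Lip_0(ℓ_1(Γ))` are linearly homeomorphic. -/
def LipL1 (X Γ : Type) [NormedAddCommGroup X] [NormedSpace ℝ X] : Prop :=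
  Nonempty (Lip0 X 0 ≃L[ℝ] Lip0 (L1 Γ) 0)

/-- `Lip_0(M)` and `Lip_0(ℓ_1(Γ))` are linearly homeomorphic for every non-porous subset `M` of `X`
and every base point. -/
def AllLipL1 (X Γ : Type) [NormedAddCommGroup X] [NormedSpace ℝ X] : Prop :=
  ∀ (M : Set X) (o : M), ¬ Porous M → Nonempty (Lip0 M o ≃L[ℝ] Lip0 (L1 Γ) 0)

/-- The spaces `Lip_0(F)` of all finite metric spaces `F` are uniformly isomorphic to uniformly
complemented subspaces of `Lip_0(X)`. -/
def FiniteFactor (X : Type) [NormedAddCommGroup X] [NormedSpace ℝ X] : Prop :=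
  ∃ C : ℝ, ∀ (F : Type) [MetricSpace F] [Finite F] (o : F),
    ∃ (J : Lip0 F o →L[ℝ] Lip0 X 0) (Q : Lip0 X 0 →L[ℝ] Lip0 F o),
      ‖J‖ ≤ C ∧ ‖Q‖ ≤ C ∧ ∀ f, Q (J f) = f

/-- The theorem for the normed space `X` of density character `|Γ|`. -/
def Holds (X Γ : Type) [NormedAddCommGroup X] [NormedSpace ℝ X] : Prop :=
  (LipL1 X Γ ↔ AllLipL1 X Γ) ∧ (LipL1 X Γ ↔ FiniteFactor X) ∧ (UnifL1 X → LipL1 X Γ) ∧
    (UnifLInf X → (Positive X ↔ LipL1 X Γ))

/-- **Main theorem.** -/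
theorem result :
    (∀ (X Γ : Type) [NormedAddCommGroup X] [NormedSpace ℝ X] [Infinite Γ], HasDensity X Γ →
      Holds X Γ) ∧
    (Positive C₀(ℕ, ℝ) ↔ LipL1 C₀(ℕ, ℝ) ℕ) := by
  have hc := card_ok
  have hg := gl_ok
  have hop : S_op := op_of J_ok Q_ok (QJ_of hg)
  have hfin : S_fin := fin_of facE_ok quot_ok ev_ok
  have hp : S_pelc := pelc_of congr_ok prod_ok add_ok curry_ok hc
  have main : ∀ (X Γ : Type) [NormedAddCommGroup X] [NormedSpace ℝ X] [Infinite Γ],
      HasDensity X Γ → Holds X Γ := by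
    intro X Γ _ _ _ hd
    obtain ⟨c, hcs⟩ := hd.2
    have hnt := nontrivial_of_sep hcs
    have k2 := fun (e : Lip0 X 0 ≃L[ℝ] Lip0 (L1 Γ) 0) (M : Set X) (o : M) (hM : ¬ Porous M) =>
      part2 congr_ok add_ok hc hp np_ok sel_ok hop hfin loc_ok sep_ok dense_ok denL_ok ex_ok hd e
        M o hM
    refine ⟨⟨?_, ?_⟩, ⟨?_, ?_⟩, ?_, fun hX => ⟨?_, ?_⟩⟩
    · rintro ⟨e⟩ M o hM
      obtain ⟨f⟩ := k2 e M o hM
      exact ⟨f.trans e⟩
    · exact fun h =>
        univ_iso congr_ok add_ok hc hp np_ok sel_ok hop hfin loc_ok sep_ok dense_ok ball_ok hd h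
    · rintro ⟨e⟩
      exact allFac_of_iso hfin denL_ok ex_ok e
    · rintro ⟨C, hC⟩
      exact iso_l1 congr_ok add_ok hc hp hop hfin loc_ok denL_ok ex_ok hd (a := C) (b := C)
        fun F _ _ o => hC F o
    · intro hX
      obtain ⟨a, b, hab⟩ := allFac_of_unifL1 hfin hX
      exact iso_l1 congr_ok add_ok hc hp hop hfin loc_ok denL_ok ex_ok hd hab
    · exact part3 congr_ok add_ok hc hp hop hfin loc_ok (crit_of ball_ok) fre_ok denL_ok ex_ok hd
        hX
    · rintro ⟨e⟩ M o hM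
      exact k2 e M o hM
  exact ⟨main, (main C₀(ℕ, ℝ) ℕ denC_ok).2.2.2 infC_ok⟩

end Pool.Agent.Results.MP_65fa9b_an.ModelSpaceL1
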