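import Pool.Agent.NH32.LP.Asm
import Pool.Agent.NH32.LP.J1
import Pool.Agent.NH32.LP.J2
import Pool.Agent.NH32.LP.J3
import Pool.Agent.NH32.LP.J4
import Pool.Agent.NH32.LP.J5
import Pool.Agent.NH32.LP.J6
import Pool.Agent.NH32.LP.J7
import Pool.Agent.NH32.LP.J8
import Pool.Agent.NH32.LP.J9
import Pool.Agent.NH32.LP.J10
import Pool.Agent.NH32.LP.J11
import Pool.Agent.NH32.LP.J12
import Pool.Agent.NH32.LP.J14

/-!
# Lipschitz spaces over non-porous subsets of spaces with uniformly complemented `ℓ_1^n`'s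

If `X` contains uniformly complemented `ℓ_1^n`'s, then `Lip_0(M)` is isomorphic to `Lip_0(X)` for
every non-porous subset `M` of `X`.  This applies to `ℓ_1(Γ)` for every infinite set `Γ` and to
every space with a complemented subspace isomorphic to such a space.
-/

set_option autoImplicit false

namespace Pool.Agent.Results.MP_65fa9b_an.UniformlyComplementedL1

open Pool.Agent.H266R3.LF Pool.Agent.NH62.Lip Pool.Agent.NH32.LP

theorem result :
    (∀ (X : Type) [NormedAddCommGroup X] [NormedSpace ℝ X], UnifL1 X →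
      ∀ (M : Set X) (o : M), ¬ Porous M → Nonempty (Lip0 M o ≃L[ℝ] Lip0 X 0)) ∧
    (∀ (X : Type) [NormedAddCommGroup X] [NormedSpace ℝ X] (Γ : Type) [Infinite Γ],
      IsoComplemented (lp (fun _ : Γ => ℝ) 1) X → UnifL1 X) := by
  have hc := card_ok
  have hg := gl_ok
  have hop : S_op := op_of J_ok Q_ok (QJ_of hg)
  have hfin : S_fin := fin_of facE_ok quot_ok ev_ok
  refine ⟨fun X _ _ hX M o h => (main_of congr_ok add_ok hc
    (pelc_of congr_ok prod_ok add_ok curry_ok hc) np_ok sel_ok hop hfin loc_ok sep_ok dense_ok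
    X M o h).2.2 hX, fun X _ _ Γ _ h => ?_⟩
  exact inh_ok X (lp (fun _ : Γ => ℝ) 1) (Asm.cp_of_isoC h) (ex_ok Γ)

end Pool.Agent.Results.MP_65fa9b_an.UniformlyComplementedL1
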